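import Pool.Agent.Helper27.GS.Two

/-!
The gap theorem for simple irreducible Lie algebras of matrices that are skew for an alternating form.
-/

set_option linter.unusedSectionVars false

open Matrix

namespace MH

variable {n : Type*} [Fintype n] [DecidableEq n]

/-- the data of the theorem on a dominating middle eigenvalue -/
theorem dat_irrS27 [Nonempty n] {Q' Qi : Matrix n n ℂ} (hQs : Q'ᵀ = -Q') (hQ1 : Q' * Qi = 1) (hQ2 : Qi * Q' = 1)
    {L : Submodule ℂ (Matrix n n ℂ)} (hbr : ∀ X ∈ L, ∀ Y ∈ L, X * Y - Y * X ∈ L)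
    (hirr : ∀ W : Submodule ℂ (n → ℂ), (∀ X ∈ L, ∀ w ∈ W, X *ᵥ w ∈ W) → W = ⊥ ∨ W = ⊤)
    (hsk : ∀ X ∈ L, Xᵀ * Q' + Q' * X = 0) {h : Matrix n n ℂ} (hh : h ∈ L) {E : ℝ → Matrix n n ℂ} {Λ : Finset ℝ}
    (hE : SD h E Λ) {B Bi : Matrix n n ℂ} (h1 : B * Bi = 1) (h2 : Bi * B = 1) (h3 : (cj B Bi h)ᴴ = cj B Bi h)
    (h4 : ∀ X ∈ L, cj Bi B (cj B Bi X)ᴴ ∈ L) :
    Dat (tG27 (B * Qi * Bᵀ) (Biᵀ * Q' * Bi)) (LBB27 L B Bi) (cj B Bi h) (fun μ => cj B Bi (E μ)) Λ := by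
  have b1 : Bᵀ * Biᵀ = 1 := by rw [← Matrix.transpose_mul, h2, Matrix.transpose_one]
  have b2 : Biᵀ * Bᵀ = 1 := by rw [← Matrix.transpose_mul, h1, Matrix.transpose_one]
  have hGiG : B * Qi * Bᵀ * (Biᵀ * Q' * Bi) = 1 := by
    calc B * Qi * Bᵀ * (Biᵀ * Q' * Bi) = B * Qi * (Bᵀ * Biᵀ) * Q' * Bi := by simp only [mul_assoc]
      _ = B * (Qi * Q') * Bi := by rw [b1, mul_one]; simp only [mul_assoc]
      _ = 1 := by rw [hQ2, mul_one, h1]
  have hGGi : Biᵀ * Q' * Bi * (B * Qi * Bᵀ) = 1 := by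
    calc Biᵀ * Q' * Bi * (B * Qi * Bᵀ) = Biᵀ * Q' * (Bi * B) * Qi * Bᵀ := by simp only [mul_assoc]
      _ = Biᵀ * (Q' * Qi) * Bᵀ := by rw [h2, mul_one]; simp only [mul_assoc]
      _ = 1 := by rw [hQ1, mul_one, b2]
  have hGt : (Biᵀ * Q' * Bi)ᵀ = -(Biᵀ * Q' * Bi) := by
    rw [Matrix.transpose_mul, Matrix.transpose_mul, Matrix.transpose_transpose, hQs, neg_mul, mul_neg, mul_assoc]
  have hsk' : ∀ x ∈ LBB27 L B Bi, tG27 (B * Qi * Bᵀ) (Biᵀ * Q' * Bi) x = -x := by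
    intro x hx
    have e1 := tG_cj27 (B := B) hQ2 h2 (hsk _ (mem_LBB27.1 hx))
    rwa [cj_cj h1] at e1
  have hst' : ∀ x ∈ LBB27 L B Bi, xᴴ ∈ LBB27 L B Bi := by
    intro x hx
    have e1 := h4 _ (mem_LBB27.1 hx)
    rwa [cj_cj h1] at e1
  have hirr' : ∀ T : Matrix n n ℂ, (∀ x ∈ LBB27 L B Bi, T * x = x * T) → ∃ c : ℂ, T = c • (1 : Matrix n n ℂ) := by
    intro T hT
    obtain ⟨c, hc⟩ := schur_of27 L hirr (T := cj Bi B T) (by
      intro X hX
      have e1 := hT (cj B Bi X) (by rw [mem_LBB27, cj_cj h2]; exact hX)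
      have e2 := congrArg (cj Bi B) e1
      rwa [← cj_mul h1, ← cj_mul h1, cj_cj h2] at e2)
    refine ⟨c, ?_⟩
    have e3 := congrArg (cj B Bi) hc
    rwa [cj_cj h1, cj_smul, cj_one h1] at e3
  generalize B * Qi * Bᵀ = Gi at hGiG hGGi hsk' ⊢
  generalize Biᵀ * Q' * Bi = G at hGiG hGGi hGt hsk' ⊢
  have hGit : Giᵀ = -Gi := by
    have e1 : -(Giᵀ * G) = 1 := by
      have e2 := congrArg Matrix.transpose hGGi
      rwa [Matrix.transpose_mul, hGt, Matrix.transpose_one, mul_neg] at e2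
    calc Giᵀ = -(-(Giᵀ * G) * Gi) := by rw [neg_mul, neg_neg, mul_assoc, hGGi, mul_one]
      _ = -Gi := by rw [e1, one_mul]
  have hsk2 : ∀ x ∈ LBB27 L B Bi, xᵀ * G = -(G * x) := by
    intro x hx
    calc xᵀ * G = G * (Gi * xᵀ * G) := by simp only [← mul_assoc]; rw [hGGi, one_mul]
      _ = -(G * x) := by rw [← tG_apply27, hsk' x hx, mul_neg]
  obtain ⟨c, hc⟩ := hirr' (Gᴴ * G) (by
    intro x hx
    have e1 : (xᴴ)ᵀ * G = -(G * xᴴ) := hsk2 _ (hst' x hx)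
    have e2 : Gᴴ * xᵀ = -(x * Gᴴ) := by
      have e3 := congrArg Matrix.conjTranspose e1
      rw [Matrix.conjTranspose_mul, Matrix.conjTranspose_neg, Matrix.conjTranspose_mul,
        Matrix.conjTranspose_conjTranspose] at e3
      have e4 : ((xᴴ)ᵀ)ᴴ = xᵀ := by
        have : (xᴴ)ᵀ = (xᵀ)ᴴ := rfl
        rw [this, Matrix.conjTranspose_conjTranspose]
      rwa [e4] at e3
    calc Gᴴ * G * x = -(Gᴴ * xᵀ * G) := by rw [mul_assoc, mul_assoc, hsk2 x hx, mul_neg, neg_neg]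
      _ = x * (Gᴴ * G) := by rw [e2, neg_mul, neg_neg, mul_assoc])
  have hcr : starRingEnd ℂ c = c := by
    have e1 : (Gᴴ * G)ᴴ = Gᴴ * G := by rw [Matrix.conjTranspose_mul, Matrix.conjTranspose_conjTranspose]
    rw [hc, Matrix.conjTranspose_smul, Matrix.conjTranspose_one] at e1
    obtain ⟨i⟩ := (inferInstance : Nonempty n)
    have e2 := congrFun (congrFun e1 i) i
    simpa using e2
  have hG1 : Gᴴ = c • Gi := by
    calc Gᴴ = Gᴴ * G * Gi := by rw [mul_assoc, hGGi, mul_one]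
      _ = c • Gi := by rw [hc, smul_mul_assoc, one_mul]
  have hG2 : G = c • Giᴴ := by
    have e1 := congrArg Matrix.conjTranspose hG1
    rw [Matrix.conjTranspose_conjTranspose, Matrix.conjTranspose_smul] at e1
    rw [e1]
    congr 1
  refine ⟨⟨?_, ?_, ?_, ?_⟩, spec_of27 (sd_cj27 hE h1 h2) h3, hsk', ?_, hst', hirr', ?_⟩
  · intro x y
    rw [tG_apply27, tG_apply27, tG_apply27, Matrix.transpose_mul]
    calc Gi * (yᵀ * xᵀ) * G = Gi * yᵀ * 1 * xᵀ * G := by rw [mul_one, ← mul_assoc Gi]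
      _ = Gi * yᵀ * G * (Gi * xᵀ * G) := by rw [← hGGi]; simp only [mul_assoc]
  · intro x
    rw [tG_apply27, tG_apply27, Matrix.transpose_mul, Matrix.transpose_mul, Matrix.transpose_transpose, hGt, hGit]
    calc Gi * (-G * (x * -Gi)) * G = Gi * G * x * (Gi * G) := by
          simp only [mul_assoc, neg_mul, mul_neg, neg_neg]
      _ = x := by rw [hGiG, one_mul, mul_one]
  · intro x
    rw [tG_apply27, tG_apply27, Matrix.conjTranspose_mul, Matrix.conjTranspose_mul]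
    have e1 : (xᴴ)ᵀ = (xᵀ)ᴴ := rfl
    rw [e1]
    calc Gi * (xᵀ)ᴴ * G = c • (Gi * (xᵀ)ᴴ * Giᴴ) := by
          conv_lhs => rw [hG2]
          rw [mul_smul_comm]
      _ = Gᴴ * ((xᵀ)ᴴ * Giᴴ) := by rw [hG1, smul_mul_assoc, mul_assoc]
  · intro x
    rw [tG_apply27, mul_assoc, Matrix.trace_mul_comm, mul_assoc, hGGi, mul_one, Matrix.trace_transpose]
  · intro x hx y hy
    rw [mem_LBB27, cj_sub, ← cj_mul h1, ← cj_mul h1]
    exact hbr _ (mem_LBB27.1 hx) _ (mem_LBB27.1 hy)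
  · rw [mem_LBB27, cj_cj h2]
    exact hh


/-- **The gap theorem, alternating form.** A simple irreducible complex Lie algebra `L` of matrices that are skew for an
alternating form, containing a diagonalisable `h` with the eigenvalues `1, 0, -1`, `0` occurring, has no elements of degree
two for `h`, or exactly a line of them (and the multiplicity of the eigenvalue `1` is at least three), or consists of all
skew matrices. -/
theorem gap_matrixS {Q' Qi : Matrix n n ℂ} (hQs : Q'ᵀ = -Q') (hQ1 : Q' * Qi = 1) (hQ2 : Qi * Q' = 1)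
    {L : Submodule ℂ (Matrix n n ℂ)} (hbr : ∀ X ∈ L, ∀ Y ∈ L, X * Y - Y * X ∈ L)
    (hirr : ∀ W : Submodule ℂ (n → ℂ), (∀ X ∈ L, ∀ w ∈ W, X *ᵥ w ∈ W) → W = ⊥ ∨ W = ⊤)
    (hsk : ∀ X ∈ L, Xᵀ * Q' + Q' * X = 0) (hsmp : Smp L) {h : Matrix n n ℂ} (hh : h ∈ L)
    {E : ℝ → Matrix n n ℂ} {Λ : Finset ℝ} (hE : SD h E Λ) (T : Three27 E) (hE0 : E 0 ≠ 0) :
    Ld L h 2 = ⊥ ∨ (Module.finrank ℂ (Ld L h 2) = 1 ∧ 3 ≤ (E 1).rank) ∨
      ∀ X : Matrix n n ℂ, Xᵀ * Q' + Q' * X = 0 → X ∈ L := by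
  classical
  have hne : Nonempty n := by
    by_contra h0
    rw [not_nonempty_iff] at h0
    exact hE0 (Subsingleton.elim _ _)
  have htr : ∀ X ∈ L, X.trace = 0 := by
    intro Y hY
    have e1 : Yᵀ * Q' = -(Q' * Y) := eq_neg_of_add_eq_zero_left (hsk Y hY)
    have e2 : Y.trace = -Y.trace := by
      calc Y.trace = (Yᵀ * (Q' * Qi)).trace := by rw [hQ1, mul_one, Matrix.trace_transpose]
        _ = -(Q' * Y * Qi).trace := by rw [← mul_assoc, e1, neg_mul, Matrix.trace_neg]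
        _ = -Y.trace := by rw [mul_assoc, Matrix.trace_mul_comm, mul_assoc, hQ2, mul_one]
    exact self_eq_neg.1 e2
  obtain ⟨B, Bi, h1, h2, h3, h4⟩ := exists_herm L hbr hirr htr hh hE
  have D := dat_irrS27 hQs hQ1 hQ2 hbr hirr hsk hh hE h1 h2 h3 h4
  have b1 : Bᵀ * Biᵀ = 1 := by rw [← Matrix.transpose_mul, h2, Matrix.transpose_one]
  have b2 : Biᵀ * Bᵀ = 1 := by rw [← Matrix.transpose_mul, h1, Matrix.transpose_one]
  have hGiG : B * Qi * Bᵀ * (Biᵀ * Q' * Bi) = 1 := by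
    calc B * Qi * Bᵀ * (Biᵀ * Q' * Bi) = B * Qi * (Bᵀ * Biᵀ) * Q' * Bi := by simp only [mul_assoc]
      _ = B * (Qi * Q') * Bi := by rw [b1, mul_one]; simp only [mul_assoc]
      _ = 1 := by rw [hQ2, mul_one, h1]
  have hGGi : Biᵀ * Q' * Bi * (B * Qi * Bᵀ) = 1 := by
    calc Biᵀ * Q' * Bi * (B * Qi * Bᵀ) = Biᵀ * Q' * (Bi * B) * Qi * Bᵀ := by simp only [mul_assoc]
      _ = Biᵀ * (Q' * Qi) * Bᵀ := by rw [h2, mul_one]; simp only [mul_assoc]
      _ = 1 := by rw [hQ1, mul_one, b2]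
  have hGt : (Biᵀ * Q' * Bi)ᵀ = -(Biᵀ * Q' * Bi) := by
    rw [Matrix.transpose_mul, Matrix.transpose_mul, Matrix.transpose_transpose, hQs, neg_mul, mul_neg, mul_assoc]
  have T' : Three27 (fun μ => cj B Bi (E μ)) := by
    intro μ m1 m2 m3
    change cj B Bi (E μ) = 0
    rw [T μ m1 m2 m3, cj_zero]
  have hE0' : cj B Bi (E 0) ≠ 0 := by
    intro h0
    apply hE0
    have := congrArg (cj Bi B) h0
    rwa [cj_cj h2, cj_zero] at this
  have hsmp' : ∀ K ≤ LBB27 L B Bi, (∀ X ∈ LBB27 L B Bi, ∀ Y ∈ K, X * Y - Y * X ∈ K) →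
      K = ⊥ ∨ K = LBB27 L B Bi := by
    intro K hK hid
    rcases hsmp (LBB27 K Bi B) (by
      intro X hX
      have e1 := hK (mem_LBB27.1 hX)
      rwa [mem_LBB27, cj_cj h2] at e1) (by
      intro X hX Y hY
      rw [mem_LBB27, cj_sub, ← cj_mul h2, ← cj_mul h2]
      refine hid _ ?_ _ (mem_LBB27.1 hY)
      rw [mem_LBB27, cj_cj h2]
      exact hX) with h5 | h5
    · left
      rw [eq_bot_iff]
      intro Y hY
      have e1 : cj Bi B Y ∈ LBB27 K Bi B := by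
        rw [mem_LBB27, cj_cj h1]
        exact hY
      rw [h5, Submodule.mem_bot] at e1
      have e2 := congrArg (cj B Bi) e1
      rw [cj_cj h1, cj_zero] at e2
      exact e2
    · right
      apply le_antisymm hK
      intro Y hY
      have e1 : cj Bi B Y ∈ LBB27 K Bi B := by
        rw [h5]
        exact mem_LBB27.1 hY
      rwa [mem_LBB27, cj_cj h1] at e1
  have hLd : ∀ X, X ∈ Ld L h 2 ↔ cj B Bi X ∈ Ld (LBB27 L B Bi) (cj B Bi h) 2 := by
    intro X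
    rw [mem_Ld, mem_Ld, mem_LBB27, cj_cj h2, cj_mul h2, cj_mul h2, ← cj_sub, ← cj_smul]
    refine and_congr_right fun _ => ⟨fun e1 => by rw [e1], fun e1 => ?_⟩
    have e2 := congrArg (cj Bi B) e1
    rwa [cj_cj h2, cj_cj h2] at e2
  rcases D.gapS27 T' hGt hGGi hGiG (fun x => rfl) hsmp' hE0' with h5 | ⟨h5, h6⟩ | h5
  · left
    rw [eq_bot_iff]
    intro X hX
    have e1 := (hLd X).1 hX
    rw [h5, Submodule.mem_bot] at e1
    have e2 := congrArg (cj Bi B) e1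
    rw [cj_cj h2, cj_zero] at e2
    exact e2
  · right; left
    constructor
    · refine Eq.trans ?_ h5
      refine LinearEquiv.finrank_eq (LinearEquiv.ofBijective
        ({ toFun := fun X => ⟨cj B Bi X.1, (hLd X.1).1 X.2⟩
           map_add' := fun X Y => Subtype.ext (cj_add _ _ _ _)
           map_smul' := fun c X => Subtype.ext (cj_smul _ _ _ _) } :
          Ld L h 2 →ₗ[ℂ] Ld (LBB27 L B Bi) (cj B Bi h) 2) ⟨?_, ?_⟩)
      · intro X Y hXY
        have e1 : cj B Bi X.1 = cj B Bi Y.1 := congrArg Subtype.val hXY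
        have e2 := congrArg (cj Bi B) e1
        rw [cj_cj h2, cj_cj h2] at e2
        exact Subtype.ext e2
      · rintro ⟨Y, hY⟩
        refine ⟨⟨cj Bi B Y, ?_⟩, Subtype.ext ?_⟩
        · rw [hLd, cj_cj h1]
          exact hY
        · change cj B Bi (cj Bi B Y) = Y
          rw [cj_cj h1]
    · have e1 : (cj B Bi (E 1)).rank = (E 1).rank := rank_cj h1 h2 (by rw [hE.mul, if_pos rfl])
      rw [← e1]
      exact h6
  · right; right
    intro X hX
    have hmem := h5 _ (tG_cj27 (B := B) hQ2 h2 hX)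
    rwa [mem_LBB27, cj_cj h2] at hmem

end MH
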