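import Pool.Agent.Helper27.GS.Core

/-!
The case of an alternating form and at most two units.
-/

set_option linter.unusedSectionVars false

open Matrix

namespace MH

variable {n : Type*} [Fintype n] [DecidableEq n]
variable {h : Matrix n n ℂ} {E : ℝ → Matrix n n ℂ} {Λ : Finset ℝ}
variable {τ : Matrix n n ℂ →ₗ[ℂ] Matrix n n ℂ} {L : Submodule ℂ (Matrix n n ℂ)}

/-- a symmetric bilinear form on a space of dimension two has an isotropic vector -/
lemma exists_iso27 {V : Type*} [AddCommGroup V] [Module ℂ V] (g : V → V → ℂ)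
    (hadd : ∀ u v w, g u (v + w) = g u v + g u w) (hsmul : ∀ u (c : ℂ) v, g u (c • v) = c * g u v)
    (hsym : ∀ u v, g u v = g v u) (hV : Module.finrank ℂ V = 2) : ∃ v, v ≠ 0 ∧ g v v = 0 := by
  have : FiniteDimensional ℂ V := Module.finite_of_finrank_pos (by omega)
  let b := Module.finBasisOfFinrankEq ℂ V hV
  by_cases h0 : g (b 0) (b 0) = 0
  · exact ⟨b 0, b.ne_zero 0, h0⟩
  · obtain ⟨z, hz⟩ := IsAlgClosed.exists_pow_nat_eq
      ((2 * g (b 0) (b 1)) ^ 2 - 4 * g (b 0) (b 0) * g (b 1) (b 1)) (n := 2) (by norm_num)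
    have hadd' : ∀ u v w, g (u + v) w = g u w + g v w := by
      intro u v w
      rw [hsym, hadd, hsym w u, hsym w v]
    have hsmul' : ∀ u (c : ℂ) v, g (c • u) v = c * g u v := by
      intro u c v
      rw [hsym, hsmul, hsym]
    refine ⟨((z - 2 * g (b 0) (b 1)) / (2 * g (b 0) (b 0))) • b 0 + b 1, ?_, ?_⟩
    · intro h1
      have h2 := b.linearIndependent
      rw [Fintype.linearIndependent_iff] at h2
      have h3 := h2 ![(z - 2 * g (b 0) (b 1)) / (2 * g (b 0) (b 0)), 1] (by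
        rw [Fin.sum_univ_two]
        simpa using h1) 1
      simp at h3
    · simp only [hadd, hadd', hsmul, hsmul']
      rw [hsym (b 1) (b 0)]
      field_simp
      linear_combination hz

namespace UB27

variable {e : Matrix n n ℂ} {d : ℕ} {u : Fin d → Matrix n n ℂ}
variable (D : Dat τ L h E Λ) (T : Three27 E) (P : MinB27 L h e) (U : UB27 L h E e u)
include D T P U

/-- In the case of at most two units the elements of degree two have full rank and form a line. -/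
theorem two_line (hd : d ≤ 2) (hr : 2 * (E 1).rank = d * e.rank) (h2 : Ld L h 2 ≠ ⊥) :
    e.rank = (E 1).rank ∧ 0 < d ∧ (E (-1)).rank = (E 1).rank ∧ (∀ a ∈ Ld L h 2, a ≠ 0 → a.rank = (E 1).rank) ∧
      Module.finrank ℂ (Ld L h 2) = 1 := by
  obtain ⟨y, hy, hy0⟩ := Submodule.exists_mem_ne_zero_of_ne_bot h2
  have hEE : ∀ μ, E μ * E μ = E μ := fun μ => by rw [D.spec.mul, if_pos rfl]
  have hrk : ∀ a ∈ Ld L h 2, a.rank ≤ (E 1).rank := by
    intro a ha
    rw [← D.Ld227 T ha, mul_assoc]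
    exact Matrix.rank_mul_le_left _ _
  have hpos : 0 < (E 1).rank := by
    have h3 := U.rank_le D T P (D.mem_BB227 hy) hy0
    have h4 := hrk y hy
    have h5 : 0 < e.rank := by
      rw [Nat.pos_iff_ne_zero]
      intro h0
      have h6 := rank_eq_trace P.idem
      have h7 := trace_pos P.ne
      rw [P.star, P.idem, ← h6, h0] at h7
      simp at h7
    omega
  have hee : e.rank = (E 1).rank := by
    have h3 := U.rank_le D T P (D.mem_BB227 hy) hy0
    have h4 := hrk y hy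
    interval_cases d
    · omega
    · omega
    · omega
  have hd0 : 0 < d := by
    rw [Nat.pos_iff_ne_zero]
    rintro rfl
    omega
  have hE1m : (E (-1)).rank = (E 1).rank := by
    have h3 : ((E (-1)).rank : ℂ) = ((E 1).rank : ℂ) := by
      rw [rank_eq_trace (hEE _), rank_eq_trace (hEE _), ← D.tauE, D.inv.tr]
    exact_mod_cast h3
  have hfull : ∀ a ∈ Ld L h 2, a ≠ 0 → a.rank = (E 1).rank := by
    intro a ha ha0
    have h3 := U.rank_le D T P (D.mem_BB227 ha) ha0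
    have h4 := hrk a ha
    omega
  have hyr : y * E (-1) = y := by
    conv_lhs => rw [← D.Ld227 T hy]
    rw [mul_assoc, hEE, D.Ld227 T hy]
  have hyl : E 1 * y = y := by
    conv_lhs => rw [← D.Ld227 T hy]
    rw [← mul_assoc, ← mul_assoc, hEE, D.Ld227 T hy]
  refine ⟨hee, hd0, hE1m, hfull, ?_⟩
  have hmin : ∀ b ∈ BB27 L h, b ≠ 0 → y.rank ≤ b.rank := by
    intro b hb hb0
    rw [hfull y hy hy0, ← hee]
    exact U.rank_le D T P hb hb0
  have hys : yᴴ ∈ Ld L h (-2) := D.Ld_star27 hy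
  obtain ⟨t₀, ht₀⟩ := min_rank_key27 (BB27 L h) (D.mem_BB227 hy) hy0 hmin (D.BB_star27 (D.mem_BB227 hy))
  have ht0 : t₀ ≠ 0 := by
    rintro rfl
    rw [zero_smul] at ht₀
    apply hy0
    apply eq_zero_of_mul
    apply eq_zero_of_mul
    rw [conjTranspose_mul, conjTranspose_conjTranspose]
    have : yᴴ * y * (yᴴ * y) = yᴴ * (y * yᴴ * y) := by noncomm_ring
    rw [this, ht₀, mul_zero]
  rw [finrank_eq_one_iff']
  refine ⟨⟨y, hy⟩, fun h0 => hy0 (congrArg Subtype.val h0), ?_⟩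
  rintro ⟨w, hw⟩
  obtain ⟨t, ht⟩ := min_rank_key27 (BB27 L h) (D.mem_BB227 hy) hy0 hmin (D.BB_star27 (D.mem_BB227 hw))
  set x : Matrix n n ℂ := w - star (t₀⁻¹ * t) • y with hx
  have hxL : x ∈ Ld L h 2 := (Ld L h 2).sub_mem hw ((Ld L h 2).smul_mem _ hy)
  have hxs : xᴴ = wᴴ - (t₀⁻¹ * t) • yᴴ := by
    rw [hx, conjTranspose_sub, conjTranspose_smul, star_star]
  have hz : y * xᴴ * y = 0 := by
    rw [hxs, mul_sub, sub_mul, ht, mul_smul_comm, smul_mul_assoc, ht₀, smul_smul, mul_right_comm,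
      inv_mul_cancel₀ ht0, one_mul, sub_self]
  have hx0 : x = 0 := by
    by_contra hne
    have hxl : E 1 * x = x := by
      conv_lhs => rw [← D.Ld227 T hxL]
      rw [← mul_assoc, ← mul_assoc, hEE, D.Ld227 T hxL]
    have hxr : x * E (-1) = x := by
      conv_lhs => rw [← D.Ld227 T hxL]
      rw [mul_assoc, hEE, D.Ld227 T hxL]
    have hxs1 : xᴴ * E 1 = xᴴ := by
      have := congrArg conjTranspose hxl
      rwa [conjTranspose_mul, D.spec.star] at this
    have hxs2 : E (-1) * xᴴ = xᴴ := by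
      have := congrArg conjTranspose hxr
      rwa [conjTranspose_mul, D.spec.star] at this
    have hxsr : xᴴ.rank = (E 1).rank := by rw [rank_star27, hfull x hxL hne]
    apply hy0
    apply Dat.mat_ext
    intro v
    rw [zero_mulVec]
    have h3 : y *ᵥ (xᴴ *ᵥ (y *ᵥ v)) = 0 := by rw [mulVec_mulVec, mulVec_mulVec, hz, zero_mulVec]
    have h4 := inj_of_rank27 hyr (by rw [hfull y hy hy0, hE1m]) h3
    rw [mulVec_mulVec, hxs2] at h4
    have h5 := inj_of_rank27 hxs1 hxsr h4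
    rwa [mulVec_mulVec, hyl] at h5
  refine ⟨star (t₀⁻¹ * t), Subtype.ext ?_⟩
  change star (t₀⁻¹ * t) • y = w
  rw [hx, sub_eq_zero] at hx0
  exact hx0.symm

/-- For an alternating form the multiplicity of the eigenvalue `1` is not two if there is only a line of elements
of degree two. -/
theorem ne_two (hE1m : (E (-1)).rank = (E 1).rank) (hfull : ∀ a ∈ Ld L h 2, a ≠ 0 → a.rank = (E 1).rank)
    (h1 : Module.finrank ℂ (Ld L h 2) = 1)
    {G Gi : Matrix n n ℂ} (hG : Gᵀ = -G) (hGi : G * Gi = 1) (hGi' : Gi * G = 1)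
    (hτ : ∀ x, τ x = Gi * xᵀ * G) : (E 1).rank ≠ 2 := by
  intro hr2
  obtain ⟨⟨y, hy⟩, hy0', hall⟩ := finrank_eq_one_iff'.1 h1
  have hy0 : y ≠ 0 := fun h0 => hy0' (Subtype.ext h0)
  have hEE : ∀ μ, E μ * E μ = E μ := fun μ => by rw [D.spec.mul, if_pos rfl]
  have hyr : y * E (-1) = y := by
    conv_lhs => rw [← D.Ld227 T hy]
    rw [mul_assoc, hEE, D.Ld227 T hy]
  have hskG : ∀ x ∈ L, xᵀ * G = -(G * x) := by
    intro x hx
    have h4 := D.sk x hx
    rw [hτ] at h4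
    have h5 := congrArg (fun Y => G * Y) h4
    simp only [mul_neg] at h5
    rw [← h5, ← mul_assoc, ← mul_assoc, hGi, one_mul]
  have hGy : (G * y)ᵀ = G * y := by
    rw [Matrix.transpose_mul, hG, mul_neg, hskG y hy.1, neg_neg]
  let M : Matrix n n ℂ := G * y
  have hM : Mᵀ = M := hGy
  have hflip : ∀ v w : n → ℂ, v ⬝ᵥ (M *ᵥ w) = w ⬝ᵥ (M *ᵥ v) := by
    intro v w
    rw [Matrix.dotProduct_mulVec, ← Matrix.mulVec_transpose, hM, dotProduct_comm]
  let R := LinearMap.range (Matrix.toLin' (E (-1)))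
  have hRf : Module.finrank ℂ R = 2 := by
    rw [← hr2, ← hE1m, Matrix.rank_eq_finrank_range_toLin (E (-1)) (Pi.basisFun ℂ n) (Pi.basisFun ℂ n),
      Matrix.toLin_eq_toLin']
  have hfix : ∀ v : R, E (-1) *ᵥ (v : n → ℂ) = v := by
    rintro ⟨v, u, hu⟩
    change E (-1) *ᵥ v = v
    rw [← hu, Matrix.toLin'_apply, Matrix.mulVec_mulVec, hEE]
  obtain ⟨v, hv0, hvv⟩ := exists_iso27 (V := R) (fun v w => (v : n → ℂ) ⬝ᵥ (M *ᵥ (w : n → ℂ)))
    (fun u v w => by
      change (u : n → ℂ) ⬝ᵥ (M *ᵥ ((v : n → ℂ) + (w : n → ℂ))) = _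
      rw [Matrix.mulVec_add, dotProduct_add])
    (fun u c v => by
      change (u : n → ℂ) ⬝ᵥ (M *ᵥ (c • (v : n → ℂ))) = _
      rw [Matrix.mulVec_smul, dotProduct_smul, smul_eq_mul])
    (fun u v => hflip _ _) hRf
  have hv0' : (v : n → ℂ) ≠ 0 := fun h0 => hv0 (Subtype.ext h0)
  -- the functional given by the isotropic vector
  let φ : R →ₗ[ℂ] ℂ :=
    { toFun := fun w => (v : n → ℂ) ⬝ᵥ (M *ᵥ (w : n → ℂ))
      map_add' := fun a b => by
        change (v : n → ℂ) ⬝ᵥ (M *ᵥ ((a : n → ℂ) + (b : n → ℂ))) = _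
        rw [Matrix.mulVec_add, dotProduct_add]
      map_smul' := fun c a => by
        change (v : n → ℂ) ⬝ᵥ (M *ᵥ (c • (a : n → ℂ))) = _
        rw [Matrix.mulVec_smul, dotProduct_smul]
        rfl }
  have hφ : ∀ w : R, φ w = (v : n → ℂ) ⬝ᵥ (M *ᵥ (w : n → ℂ)) := fun w => rfl
  have hφ0 : φ ≠ 0 := by
    intro h0
    apply hv0'
    have h3 : M *ᵥ (v : n → ℂ) = 0 := by
      have h4 : ∀ w : n → ℂ, w ⬝ᵥ (M *ᵥ (v : n → ℂ)) = 0 := by
        intro w
        rw [hflip]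
        have h5 : M *ᵥ w = M *ᵥ (E (-1) *ᵥ w) := by
          change (G * y) *ᵥ w = (G * y) *ᵥ (E (-1) *ᵥ w)
          rw [Matrix.mulVec_mulVec, mul_assoc, hyr]
        rw [h5]
        have h6 := LinearMap.congr_fun h0 ⟨E (-1) *ᵥ w, w, by rw [Matrix.toLin'_apply]⟩
        rw [hφ] at h6
        exact h6
      ext i
      have h5 := h4 (Pi.single i 1)
      rwa [single_one_dotProduct] at h5
    have h4 : y *ᵥ (v : n → ℂ) = 0 := by
      have h5 := congrArg (fun w => Gi *ᵥ w) h3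
      simp only [Matrix.mulVec_zero] at h5
      rwa [Matrix.mulVec_mulVec, ← mul_assoc, hGi', one_mul] at h5
    have h5 := inj_of_rank27 hyr (by rw [hfull y hy hy0, hE1m]) h4
    rwa [hfix] at h5
  have hker : Module.finrank ℂ (LinearMap.ker φ) = 1 := by
    have h3 := LinearMap.finrank_range_add_finrank_ker φ
    have h4 : Module.finrank ℂ (LinearMap.range φ) = 1 := by
      have h5 : LinearMap.range φ = ⊤ := LinearMap.range_eq_top.2 (LinearMap.surjective hφ0)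
      rw [h5, finrank_top, Module.finrank_self]
    omega
  have hline : ∀ w : R, φ w = 0 → ∃ c : ℂ, (w : n → ℂ) = c • (v : n → ℂ) := by
    intro w hw
    have hvk : v ∈ LinearMap.ker φ := hvv
    obtain ⟨c, hc⟩ := (finrank_eq_one_iff_of_nonzero' (⟨v, hvk⟩ : LinearMap.ker φ)
      (fun h0 => hv0 (congrArg Subtype.val h0))).1 hker ⟨w, hw⟩
    refine ⟨c, ?_⟩
    have h3 := congrArg (fun z : LinearMap.ker φ => ((z : R) : n → ℂ)) hc
    exact h3.symm
  -- the line of `v` is stable under the elements of degree zero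
  have hstab : ∀ x ∈ Ld L h 0, ∀ w ∈ Submodule.span ℂ {(v : n → ℂ)}, x *ᵥ w ∈ Submodule.span ℂ {(v : n → ℂ)} := by
    intro x hx w hw
    obtain ⟨c, rfl⟩ := Submodule.mem_span_singleton.1 hw
    rw [Matrix.mulVec_smul]
    refine Submodule.smul_mem _ _ ?_
    have hxy : x * y - y * x ∈ Ld L h 2 := by
      have := Dat.Ld_bracket D.br hx hy
      rwa [zero_add] at this
    obtain ⟨k, hk⟩ := hall ⟨_, hxy⟩
    have hk' : k • y = x * y - y * x := congrArg Subtype.val hk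
    have hxE : E (-1) *ᵥ (x *ᵥ (v : n → ℂ)) = x *ᵥ (v : n → ℂ) := by
      have e1 := D.Ld_mul_E hx (-1)
      rw [add_zero] at e1
      calc E (-1) *ᵥ (x *ᵥ (v : n → ℂ)) = E (-1) *ᵥ (x *ᵥ (E (-1) *ᵥ (v : n → ℂ))) := by rw [hfix]
        _ = (E (-1) * x * E (-1)) *ᵥ (v : n → ℂ) := by
            rw [Matrix.mulVec_mulVec, Matrix.mulVec_mulVec, mul_assoc]
        _ = x *ᵥ (v : n → ℂ) := by rw [← e1, ← Matrix.mulVec_mulVec, hfix]
    obtain ⟨c', hc'⟩ := hline ⟨x *ᵥ (v : n → ℂ), x *ᵥ (v : n → ℂ), by rw [Matrix.toLin'_apply, hxE]⟩ (by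
      rw [hφ]
      change (v : n → ℂ) ⬝ᵥ (M *ᵥ (x *ᵥ (v : n → ℂ))) = 0
      have e1 : M * x = -(xᵀ * M) - k • M := by
        change G * y * x = -(xᵀ * (G * y)) - k • (G * y)
        rw [← mul_assoc, hskG x hx.1, neg_mul, neg_neg, ← mul_smul_comm, hk']
        noncomm_ring
      have e2 : (v : n → ℂ) ⬝ᵥ (M *ᵥ (v : n → ℂ)) = 0 := hvv
      have e3 : (v : n → ℂ) ⬝ᵥ ((xᵀ * M) *ᵥ (v : n → ℂ)) = (v : n → ℂ) ⬝ᵥ ((M * x) *ᵥ (v : n → ℂ)) := by
        rw [← Matrix.mulVec_mulVec, ← Matrix.mulVec_mulVec _ M, Matrix.dotProduct_mulVec, Matrix.vecMul_transpose]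
        exact hflip _ _
      have e4 : (v : n → ℂ) ⬝ᵥ ((M * x) *ᵥ (v : n → ℂ)) = -((v : n → ℂ) ⬝ᵥ ((M * x) *ᵥ (v : n → ℂ))) := by
        conv_lhs => rw [e1]
        rw [Matrix.sub_mulVec, Matrix.neg_mulVec, Matrix.smul_mulVec, dotProduct_sub, dotProduct_neg,
          dotProduct_smul, e2, smul_zero, sub_zero, e3]
      rw [Matrix.mulVec_mulVec]
      exact self_eq_neg.1 e4)
    exact Submodule.mem_span_singleton.2 ⟨c', hc'.symm⟩
  have hne : Submodule.span ℂ {(v : n → ℂ)} ≠ ⊥ := by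
    rw [Ne, Submodule.span_singleton_eq_bot]
    exact hv0'
  have hR : ∀ w : R, ∃ c : ℂ, c • v = w := by
    intro w
    have h3 := D.top_irr27 T (Or.inr rfl) hne (by
      intro w hw
      obtain ⟨c, rfl⟩ := Submodule.mem_span_singleton.1 hw
      rw [Matrix.mulVec_smul, hfix]) hstab (hfix w)
    obtain ⟨c, hc⟩ := Submodule.mem_span_singleton.1 h3
    exact ⟨c, Subtype.ext hc⟩
  have h3 : Module.finrank ℂ R = 1 := finrank_eq_one v hv0 hR
  omega

end UB27

/-- **The gap theorem, alternating form.** -/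
theorem Dat.gapS27 (D : Dat τ L h E Λ) (T : Three27 E)
    {G Gi : Matrix n n ℂ} (hG : Gᵀ = -G) (hGi : G * Gi = 1) (hGi' : Gi * G = 1)
    (hτ : ∀ x, τ x = Gi * xᵀ * G)
    (hsmp : ∀ K ≤ L, (∀ X ∈ L, ∀ Y ∈ K, X * Y - Y * X ∈ K) → K = ⊥ ∨ K = L)
    (hE0 : E 0 ≠ 0) :
    Ld L h 2 = ⊥ ∨ (Module.finrank ℂ (Ld L h 2) = 1 ∧ 3 ≤ (E 1).rank) ∨ ∀ X, τ X = -X → X ∈ L := by
  by_cases h2 : Ld L h 2 = ⊥
  · exact Or.inl h2
  right
  have hE1 : E 0 ≠ 1 := by
    intro h0
    apply h2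
    rw [eq_bot_iff]
    intro x hx
    rw [Submodule.mem_bot]
    have := (D.gen_zero27 T (Or.inl hx)).2.1
    rwa [h0, one_mul] at this
  obtain ⟨e, P⟩ := D.exists_minB27 T h2
  obtain ⟨d, u, U, hr⟩ := D.exists_units27 T P h2
  by_cases hd : d ≤ 2
  · obtain ⟨k1, k2, k3, k4, k5⟩ := U.two_line D T P hd hr h2
    have k6 := U.ne_two D T P k3 k4 k5 hG hGi hGi' hτ
    by_cases k7 : 3 ≤ (E 1).rank
    · exact Or.inl ⟨k5, k7⟩
    · right
      have k8 : e.rank = 1 := by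
        have k9 : 0 < e.rank := by
          rw [Nat.pos_iff_ne_zero]
          intro h0
          have h6 := rank_eq_trace P.idem
          have h7 := trace_pos P.ne
          rw [P.star, P.idem, ← h6, h0] at h7
          simp at h7
        omega
      intro X hX
      exact U.full_of_rank_one1 D T P k2 hE0 hE1 (rank_one_scal27 k8) hX
  · right
    intro X hX
    exact U.full_of_rank_one D T P (by omega) hE0 hE1
      (U.rank_one D T P (by omega) h2 hsmp (D.OO_ne27 T hE0 hE1)) hX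

end MH
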